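import Pool.Agent.TH894.ND1
import Pool.Agent.N24.RW.Defs

/-!
# Pronull sets and vectors of integers with few randomly chosen digits changed (helper file)

Owner helper14. For `l ∈ ι` let `a l 0, a l 1, …` be integers such that the differences
`a l (2 i + 1) - a l (2 i)` are not zero and have only prime divisors `≤ P` (for example
`a l i = D i * b ^ i`, `0 < |D i| < b`). Choose `r l` of the indices `0, …, K l - 1` at random,
independently for different `l`. The vector of the integers `c l + ∑ i ∈ S l, a l i` is in a pronull set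
with a probability which tends to zero if all `r l` tend to infinity with `2 r l ≤ K l`, uniformly.
-/

set_option autoImplicit false

namespace Pool.Agent.L5helper14.FDC

open Finset Filter Topology
open Pool.Agent.N24.RW (ProNull)

/-- `x ≠ 0` has only prime divisors `≤ P`. -/
def Smooth (P : ℕ) (x : ℤ) : Prop := x ≠ 0 ∧ ∀ p : ℕ, p.Prime → (p : ℤ) ∣ x → p ≤ P

lemma isUnit_of_smooth {P Q : ℕ} {x : ℤ} (hx : Smooth P x) (hQ : Q.Coprime (Nat.factorial P)) :
    IsUnit (x : ZMod Q) := by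
  have h1 : IsCoprime x (Q : ℤ) := by
    rw [Int.isCoprime_iff_gcd_eq_one]
    by_contra hne
    obtain ⟨p, hp, hpd⟩ := Nat.exists_prime_and_dvd hne
    have h2 : (p : ℤ) ∣ x := (Int.natCast_dvd_natCast.2 hpd).trans (Int.gcd_dvd_left _ _)
    have h3 : p ∣ Q := Int.natCast_dvd_natCast.1
      ((Int.natCast_dvd_natCast.2 hpd).trans (Int.gcd_dvd_right _ _))
    have h4 : p ∣ Nat.factorial P := hp.dvd_factorial.2 (hx.2 p hp h2)
    exact hp.one_lt.ne' (Nat.dvd_one.1 (hQ ▸ Nat.dvd_gcd h3 h4))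
  obtain ⟨u, v, huv⟩ := h1
  refine IsUnit.of_mul_eq_one ((u : ℤ) : ZMod Q) ?_
  have h5 : ((u * x + v * Q : ℤ) : ZMod Q) = 1 := by rw [huv]; simp
  push_cast at h5
  rw [ZMod.natCast_self, mul_zero, add_zero] at h5
  rw [mul_comm]
  exact h5

/-- Different values of the standard character are separated. -/
lemma sep (Q : ℕ) [NeZero Q] : ∃ η : ℝ, 0 < η ∧ η ≤ 1 ∧ ∀ x y : ZMod Q, x ≠ y →
    ‖ZMod.stdAddChar x + ZMod.stdAddChar y‖ ≤ 2 * (1 - η) := by
  classical
  have hlt : ∀ x y : ZMod Q, x ≠ y → ‖ZMod.stdAddChar x + ZMod.stdAddChar y‖ < 2 := by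
    intro x y hxy
    have hne : (ZMod.stdAddChar x : ℂ) ≠ ZMod.stdAddChar y := fun h =>
      hxy (ZMod.injective_stdAddChar h)
    have hx : ‖(ZMod.stdAddChar x : ℂ)‖ = 1 := AddChar.norm_apply _ _
    have hy : ‖(ZMod.stdAddChar y : ℂ)‖ = 1 := AddChar.norm_apply _ _
    have h1 : ¬ SameRay ℝ (ZMod.stdAddChar x : ℂ) (ZMod.stdAddChar y) :=
      (not_sameRay_iff_of_norm_eq (by rw [hx, hy])).2 hne
    have h2 := norm_add_lt_of_not_sameRay h1
    rw [hx, hy] at h2
    linarith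
  let T : Finset (ZMod Q × ZMod Q) := univ.filter fun z => z.1 ≠ z.2
  rcases T.eq_empty_or_nonempty with h0 | hT
  · refine ⟨1, one_pos, le_rfl, fun x y hxy => ?_⟩
    have : (x, y) ∈ T := by simp [T, hxy]
    rw [h0] at this
    exact absurd this (notMem_empty _)
  · obtain ⟨z, hz, hmax⟩ := T.exists_max_image
      (fun z => ‖(ZMod.stdAddChar z.1 : ℂ) + ZMod.stdAddChar z.2‖) hT
    have hz' := hlt z.1 z.2 (mem_filter.1 hz).2
    have hz0 := norm_nonneg ((ZMod.stdAddChar z.1 : ℂ) + ZMod.stdAddChar z.2)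
    refine ⟨1 - ‖(ZMod.stdAddChar z.1 : ℂ) + ZMod.stdAddChar z.2‖ / 2, by linarith, by linarith,
      fun x y hxy => ?_⟩
    have := hmax (x, y) (by simp [T, hxy])
    simp only at this
    linarith

/-- The bound for the exponential sums. -/
lemma char_bound (P Q : ℕ) [NeZero Q] (hQ : Q.Coprime (Nat.factorial P)) (δ : ℝ) (hδ : 0 < δ) :
    ∃ r₀ : ℕ, ∀ K r : ℕ, r₀ ≤ r → 2 * r ≤ K → ∀ a : ℕ → ℤ,
      (∀ i, 2 * i + 1 < K → Smooth P (a (2 * i + 1) - a (2 * i))) → ∀ k : ZMod Q, k ≠ 0 →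
      ‖∑ S ∈ powersetCard r (range K), ∏ i ∈ S, (ZMod.stdAddChar (k * (a i : ZMod Q)) : ℂ)‖ ≤
        δ * (K.choose r : ℝ) := by
  obtain ⟨η, hη, hη1, hsep⟩ := sep Q
  have hlim : Tendsto (fun r : ℕ => (4 * (r : ℝ) + 2) * Real.exp (-(η / 8 * r))) atTop (𝓝 0) := by
    have h1 : Tendsto (fun x : ℝ => x ^ 1 * Real.exp (-x)) atTop (𝓝 0) :=
      Real.tendsto_pow_mul_exp_neg_atTop_nhds_zero 1
    have h2 : Tendsto (fun x : ℝ => Real.exp (-x)) atTop (𝓝 0) := Real.tendsto_exp_neg_atTop_nhds_zero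
    have h3 : Tendsto (fun r : ℕ => η / 8 * (r : ℝ)) atTop atTop :=
      Tendsto.const_mul_atTop (by positivity) tendsto_natCast_atTop_atTop
    have h4 := ((h1.comp h3).const_mul (32 / η)).add ((h2.comp h3).const_mul 2)
    rw [mul_zero, mul_zero, add_zero] at h4
    refine h4.congr fun r => ?_
    simp only [Function.comp_apply, pow_one]
    field_simp
    ring
  obtain ⟨r₀, hr₀⟩ := (hlim.eventually (gt_mem_nhds hδ)).exists_forall_of_atTop
  refine ⟨r₀ + 1, fun K r hr hK a ha k hk => ?_⟩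
  have hb := Pool.Agent.TH894.ND.esymm_bound K r 1 (by omega) hK le_rfl
    (fun i => (ZMod.stdAddChar (k * (a i : ZMod Q)) : ℂ)) (fun j => (AddChar.norm_apply _ _).le)
    (range (K / 2)) (fun i hi => by have := mem_range.1 hi; omega) η hη.le hη1 (by
      intro i hi
      have hi' := mem_range.1 hi
      have hu := isUnit_of_smooth (ha i (by omega)) hQ
      rw [mul_one]
      rw [add_comm]
      apply hsep
      intro heq
      apply hk
      have h1 : k * (((a (2 * i + 1) - a (2 * i) : ℤ)) : ZMod Q) = 0 := by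
        push_cast
        rw [mul_sub, heq, sub_self]
      exact (hu.mul_left_eq_zero).1 h1)
  refine hb.trans ?_
  have hKr : 2 ≤ K := by omega
  have hK0 : (0 : ℝ) < K := by exact_mod_cast (by omega : 0 < K)
  have hc : (K : ℝ) / 4 ≤ ((range (K / 2)).card : ℝ) := by
    rw [card_range]
    have : K ≤ 4 * (K / 2) := by omega
    have h2 : (K : ℝ) ≤ 4 * ((K / 2 : ℕ) : ℝ) := by exact_mod_cast this
    linarith
  have he : Real.exp (-(η * r * ((range (K / 2)).card : ℝ) / (2 * K))) ≤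
      Real.exp (-(η / 8 * r)) := by
    apply Real.exp_le_exp.2
    apply neg_le_neg
    rw [le_div_iff₀ (by positivity)]
    have hr0 : (0 : ℝ) ≤ r := Nat.cast_nonneg r
    have : η * r * ((K : ℝ) / 4) ≤ η * r * ((range (K / 2)).card : ℝ) :=
      mul_le_mul_of_nonneg_left hc (by positivity)
    linarith
  have h3 := (hr₀ r (by omega)).le
  have hch : (0 : ℝ) ≤ (K.choose r : ℝ) := Nat.cast_nonneg _
  calc (4 * (r : ℝ) + 2) * (K.choose r : ℝ) * Real.exp (-(η * r * ((range (K / 2)).card : ℝ) / (2 * K)))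
      ≤ (4 * (r : ℝ) + 2) * (K.choose r : ℝ) * Real.exp (-(η / 8 * r)) :=
        mul_le_mul_of_nonneg_left he (by positivity)
    _ = (4 * (r : ℝ) + 2) * Real.exp (-(η / 8 * r)) * (K.choose r : ℝ) := by ring
    _ ≤ δ * (K.choose r : ℝ) := mul_le_mul_of_nonneg_right h3 hch

/-- The number of the choices with a given sum modulo `Q`. -/
lemma count_one (P Q : ℕ) [NeZero Q] (hQ : Q.Coprime (Nat.factorial P)) (δ : ℝ) (hδ : 0 < δ) :
    ∃ r₀ : ℕ, ∀ K r : ℕ, r₀ ≤ r → 2 * r ≤ K → ∀ a : ℕ → ℤ,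
      (∀ i, 2 * i + 1 < K → Smooth P (a (2 * i + 1) - a (2 * i))) → ∀ ρ : ZMod Q,
      (((powersetCard r (range K)).filter
        fun S => ((∑ i ∈ S, a i : ℤ) : ZMod Q) = ρ).card : ℝ) ≤
        (1 / Q + δ) * (K.choose r : ℝ) := by
  classical
  obtain ⟨r₀, hr₀⟩ := char_bound P Q hQ δ hδ
  refine ⟨r₀, fun K r hr hK a ha ρ => ?_⟩
  have hQ0 : (0 : ℝ) < Q := by exact_mod_cast Nat.pos_of_ne_zero (NeZero.ne Q)
  have key : (((powersetCard r (range K)).filter
        fun S => ((∑ i ∈ S, a i : ℤ) : ZMod Q) = ρ).card : ℂ) * Q =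
      ∑ k : ZMod Q, (ZMod.stdAddChar (k * (-ρ)) : ℂ) *
        ∑ S ∈ powersetCard r (range K), ∏ i ∈ S, (ZMod.stdAddChar (k * (a i : ZMod Q)) : ℂ) := by
    have h1 : ∀ S : Finset ℕ, (if ((∑ i ∈ S, a i : ℤ) : ZMod Q) = ρ then (Q : ℂ) else 0) =
        ∑ k : ZMod Q, (ZMod.stdAddChar (k * (-ρ)) : ℂ) *
          ∏ i ∈ S, (ZMod.stdAddChar (k * (a i : ZMod Q)) : ℂ) := by
      intro S
      have h2 := AddChar.sum_mulShift (((∑ i ∈ S, a i : ℤ) : ZMod Q) - ρ)
        (ZMod.isPrimitive_stdAddChar Q)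
      simp only [sub_eq_zero, ZMod.card] at h2
      rw [Nat.cast_ite, Nat.cast_zero] at h2
      rw [← h2]
      refine sum_congr rfl fun k _ => ?_
      have h3 : ∏ i ∈ S, (ZMod.stdAddChar (k * (a i : ZMod Q)) : ℂ) =
          ZMod.stdAddChar (∑ i ∈ S, k * (a i : ZMod Q)) := by
        clear h2
        induction S using Finset.induction_on with
        | empty => simp
        | insert i S hi ih => rw [prod_insert hi, sum_insert hi, AddChar.map_add_eq_mul, ih]
      rw [h3, ← AddChar.map_add_eq_mul, ← mul_sum]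
      congr 1
      push_cast
      ring
    rw [card_filter, Nat.cast_sum, sum_mul]
    simp_rw [mul_sum]
    rw [sum_comm]
    refine sum_congr rfl fun S _ => ?_
    rw [← h1 S]
    split_ifs <;> simp
  have hnorm : ((((powersetCard r (range K)).filter
        fun S => ((∑ i ∈ S, a i : ℤ) : ZMod Q) = ρ).card : ℝ)) * Q ≤
      (K.choose r : ℝ) + Q * (δ * (K.choose r : ℝ)) := by
    have h1 : ((((powersetCard r (range K)).filter
        fun S => ((∑ i ∈ S, a i : ℤ) : ZMod Q) = ρ).card : ℝ)) * Q =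
        ‖(((powersetCard r (range K)).filter
        fun S => ((∑ i ∈ S, a i : ℤ) : ZMod Q) = ρ).card : ℂ) * Q‖ := by
      rw [norm_mul, Complex.norm_natCast, Complex.norm_natCast]
    rw [h1, key]
    rw [← add_sum_erase univ _ (mem_univ (0 : ZMod Q))]
    refine (norm_add_le _ _).trans ?_
    apply add_le_add
    · simp [card_powersetCard]
    · refine (norm_sum_le _ _).trans ?_
      have h2 : ∀ k ∈ (univ : Finset (ZMod Q)).erase 0, ‖(ZMod.stdAddChar (k * (-ρ)) : ℂ) *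
        ∑ S ∈ powersetCard r (range K), ∏ i ∈ S, (ZMod.stdAddChar (k * (a i : ZMod Q)) : ℂ)‖ ≤
          δ * (K.choose r : ℝ) := by
        intro k hk
        rw [norm_mul, AddChar.norm_apply, one_mul]
        exact hr₀ K r hr hK a ha k (ne_of_mem_erase hk)
      refine (sum_le_card_nsmul _ _ _ h2).trans ?_
      rw [nsmul_eq_mul]
      apply mul_le_mul_of_nonneg_right _ (by positivity)
      have h3 : ((univ : Finset (ZMod Q)).erase 0).card ≤ Q :=
        (card_le_card (erase_subset _ _)).trans (by rw [card_univ, ZMod.card])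
      exact_mod_cast h3
  have h5 : (1 / (Q : ℝ) + δ) * (K.choose r : ℝ) =
      ((K.choose r : ℝ) + Q * (δ * (K.choose r : ℝ))) / Q := by
    field_simp
  rw [h5, le_div_iff₀ hQ0]
  exact hnorm

section

variable {ι : Type} [Fintype ι] [DecidableEq ι]

/-- The choices of `r l` of the positions `0, …, K l - 1` for all `l`. -/
def choices (K r : ι → ℕ) : Finset (ι → Finset ℕ) :=
  Fintype.piFinset fun l => powersetCard (r l) (range (K l))

lemma card_choices (K r : ι → ℕ) : (choices K r).card = ∏ l, (K l).choose (r l) := by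
  unfold choices
  rw [Fintype.card_piFinset]
  exact prod_congr rfl fun l _ => by rw [card_powersetCard, card_range]

/-- The vector with the coordinates `c l + ∑ i ∈ S l, a l i`. -/
def value (c : ι → ℤ) (a : ι → ℕ → ℤ) (S : ι → Finset ℕ) (l : ι) : ℤ := c l + ∑ i ∈ S l, a l i

/-- The condition on the numbers `r l`, `K l` and `a l i`. -/
def Adm (P ρ : ℕ) (K r : ι → ℕ) (a : ι → ℕ → ℤ) : Prop :=
  (∀ l, ρ ≤ r l ∧ 2 * r l ≤ K l) ∧
    ∀ l i, 2 * i + 1 < K l → Smooth P (a l (2 * i + 1) - a l (2 * i))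

/-- **Pronull sets are visited rarely.** -/
theorem count_null (P : ℕ) (B : Set (ι → ℤ)) (hB : ProNull B) (ε : ℝ) (hε : 0 < ε) :
    ∃ ρ₀ : ℕ, ∀ ρ, ρ₀ ≤ ρ → ∀ (K r : ι → ℕ) (a : ι → ℕ → ℤ), Adm P ρ K r a → ∀ c : ι → ℤ,
      ({S : ι → Finset ℕ | S ∈ choices K r ∧ value c a S ∈ B}.ncard : ℝ) ≤
        ε * (choices K r).card := by
  classical
  obtain ⟨Q, hQ, hQc, hc⟩ := hB (Nat.factorial P) (Nat.factorial_pos P) (ε / 3) (by positivity)
  have : NeZero Q := ⟨hQ.ne'⟩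
  obtain ⟨d, hd⟩ : ∃ d, d = Fintype.card ι := ⟨_, rfl⟩
  rw [← hd] at hc
  have hQ0 : (0 : ℝ) < Q := by exact_mod_cast hQ
  obtain ⟨δ, hδ⟩ : ∃ δ : ℝ, δ = 1 / (Q * (d + 1)) := ⟨_, rfl⟩
  have hδ0 : 0 < δ := by rw [hδ]; positivity
  obtain ⟨ρ₀, hρ₀⟩ := count_one P Q hQc δ hδ0
  refine ⟨ρ₀, fun ρ hρ K r a hA c => ?_⟩
  obtain ⟨I, hI⟩ : ∃ I : Set (ι → ZMod Q), I = (fun (c : ι → ℤ) (i : ι) => (c i : ZMod Q)) '' B :=
    ⟨_, rfl⟩
  rw [← hI] at hc
  have hIf : I.Finite := Set.toFinite I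
  have hcard0 : (0 : ℝ) ≤ ((choices K r).card : ℝ) := Nat.cast_nonneg _
  have h5 : ∀ σ : ι → ZMod Q, (((choices K r).filter
      fun S => (fun l => ((value c a S l : ℤ) : ZMod Q)) = σ).card : ℝ) ≤
      3 / (Q : ℝ) ^ d * (choices K r).card := by
    intro σ
    have e1 : ((choices K r).filter fun S => (fun l => ((value c a S l : ℤ) : ZMod Q)) = σ) =
        Fintype.piFinset fun l => (powersetCard (r l) (range (K l))).filter
          fun S => ((∑ i ∈ S, a l i : ℤ) : ZMod Q) = σ l - c l := by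
      ext S
      simp only [mem_filter, choices, Fintype.mem_piFinset, funext_iff, value, Int.cast_add]
      constructor
      · rintro ⟨h1, h2⟩ l
        exact ⟨h1 l, by rw [← h2 l]; ring⟩
      · intro h
        exact ⟨fun l => (h l).1, fun l => by rw [(h l).2]; ring⟩
    rw [e1, Fintype.card_piFinset, card_choices]
    push_cast
    have h6 : ∏ l, ((((powersetCard (r l) (range (K l))).filter
          fun S => ((∑ i ∈ S, a l i : ℤ) : ZMod Q) = σ l - c l).card : ℕ) : ℝ) ≤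
        ∏ l, ((1 / (Q : ℝ) + δ) * ((K l).choose (r l) : ℝ)) :=
      prod_le_prod (fun l _ => Nat.cast_nonneg _) fun l _ =>
        hρ₀ (K l) (r l) (hρ.trans (hA.1 l).1) (hA.1 l).2 (a l) (hA.2 l) _
    rw [prod_mul_distrib, prod_const, card_univ, ← hd] at h6
    push_cast at h6
    refine h6.trans (mul_le_mul_of_nonneg_right ?_ (by positivity))
    have h7 : 1 / (Q : ℝ) + δ = 1 / Q * (1 + 1 / (d + 1)) := by
      rw [hδ]; field_simp
    rw [h7, mul_pow, div_pow, one_pow]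
    have h8 : (1 + 1 / ((d : ℝ) + 1)) ^ d ≤ 3 := by
      have h9 : (1 + 1 / ((d : ℝ) + 1)) ^ d ≤ (Real.exp (1 / ((d : ℝ) + 1))) ^ d := by
        apply pow_le_pow_left₀ (by positivity)
        have := Real.add_one_le_exp (1 / ((d : ℝ) + 1))
        linarith
      refine h9.trans ?_
      rw [← Real.exp_nat_mul]
      have h10 : (d : ℝ) * (1 / ((d : ℝ) + 1)) ≤ 1 := by
        rw [mul_one_div, div_le_one (by positivity)]
        linarith
      refine (Real.exp_le_exp.2 h10).trans ?_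
      have := Real.exp_one_lt_d9
      linarith
    calc 1 / (Q : ℝ) ^ d * (1 + 1 / ((d : ℝ) + 1)) ^ d ≤ 1 / (Q : ℝ) ^ d * 3 :=
          mul_le_mul_of_nonneg_left h8 (by positivity)
      _ = 3 / (Q : ℝ) ^ d := by ring
  have h1 : {S : ι → Finset ℕ | S ∈ choices K r ∧ value c a S ∈ B} ⊆
      ↑(hIf.toFinset.biUnion fun σ => (choices K r).filter
        fun S => (fun l => ((value c a S l : ℤ) : ZMod Q)) = σ) := by
    rintro S ⟨hS, hSB⟩
    rw [Finset.mem_coe, Finset.mem_biUnion]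
    refine ⟨fun l => ((value c a S l : ℤ) : ZMod Q), ?_, Finset.mem_filter.2 ⟨hS, rfl⟩⟩
    rw [Set.Finite.mem_toFinset, hI]
    exact ⟨value c a S, hSB, rfl⟩
  have h2 : ({S : ι → Finset ℕ | S ∈ choices K r ∧ value c a S ∈ B}.ncard : ℝ) ≤
      ∑ σ ∈ hIf.toFinset, (((choices K r).filter
        fun S => (fun l => ((value c a S l : ℤ) : ZMod Q)) = σ).card : ℝ) := by
    have h3 := Set.ncard_le_ncard h1 (Finset.finite_toSet _)
    rw [Set.ncard_coe_finset] at h3
    have h4 := h3.trans Finset.card_biUnion_le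
    exact_mod_cast h4
  have h11 : (hIf.toFinset.card : ℝ) ≤ ε / 3 * (Q : ℝ) ^ d := by
    rw [← Set.ncard_eq_toFinset_card I hIf]
    exact hc
  refine h2.trans ((Finset.sum_le_card_nsmul _ _ _ fun σ _ => h5 σ).trans ?_)
  rw [nsmul_eq_mul]
  calc (hIf.toFinset.card : ℝ) * (3 / (Q : ℝ) ^ d * (choices K r).card) ≤
        (ε / 3 * (Q : ℝ) ^ d) * (3 / (Q : ℝ) ^ d * (choices K r).card) :=
        mul_le_mul_of_nonneg_right h11 (by positivity)
    _ = ε * (choices K r).card := by field_simp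

/-- **One exceptional set of vectors for each `ρ`**, for increasingly many pronull conditions. -/
theorem diag (P : ℕ) (B : ℕ → Set (ι → ℤ)) (hmono : Monotone B) (hB : ∀ D, ProNull (B D)) :
    ∃ (E : ℕ → Set (ι → ℤ)) (ω : ℕ → ℝ), Tendsto ω atTop (𝓝 0) ∧
      (∀ D, ∃ ρ₀ : ℕ, ∀ ρ, ρ₀ ≤ ρ → B D ⊆ E ρ) ∧
      ∀ (ρ : ℕ) (K r : ι → ℕ) (a : ι → ℕ → ℤ), Adm P ρ K r a → ∀ c : ι → ℤ,
        ({S : ι → Finset ℕ | S ∈ choices K r ∧ value c a S ∈ E ρ}.ncard : ℝ) ≤
          ω ρ * (choices K r).card := by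
  classical
  choose Z₀ hZ₀ using fun D : ℕ => count_null P (B D) (hB D) (1 / ((D : ℝ) + 1)) (by positivity)
  obtain ⟨κ, hκ⟩ : ∃ κ : ℕ → ℕ, κ = fun Z => Nat.findGreatest (fun D => Z₀ D ≤ Z) Z := ⟨_, rfl⟩
  have hκge : ∀ (D : ℕ) (Z : ℕ), D ≤ Z → Z₀ D ≤ Z → D ≤ κ Z ∧ Z₀ (κ Z) ≤ Z := by
    intro D Z h1 h2
    rw [hκ]
    exact ⟨Nat.le_findGreatest h1 h2, Nat.findGreatest_spec (P := fun D => Z₀ D ≤ Z) h1 h2⟩
  refine ⟨fun Z => if Z₀ (κ Z) ≤ Z then B (κ Z) else ∅, fun Z => 1 / ((κ Z : ℝ) + 1), ?_, ?_, ?_⟩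
  · rw [Metric.tendsto_atTop]
    intro ε hε
    obtain ⟨D, hD⟩ := exists_nat_one_div_lt hε
    refine ⟨max D (Z₀ D), fun Z hZ => ?_⟩
    have h1 := (hκge D Z ((le_max_left _ _).trans hZ) ((le_max_right _ _).trans hZ)).1
    have h2 : (D : ℝ) ≤ κ Z := by exact_mod_cast h1
    rw [Real.dist_eq, sub_zero, abs_of_nonneg (by positivity)]
    refine lt_of_le_of_lt ?_ hD
    apply one_div_le_one_div_of_le (by positivity)
    linarith
  · intro D
    refine ⟨max D (Z₀ D), fun Z hZ => ?_⟩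
    obtain ⟨h1, h2⟩ := hκge D Z ((le_max_left _ _).trans hZ) ((le_max_right _ _).trans hZ)
    simp only [if_pos h2]
    exact hmono h1
  · intro Z K r a hA c
    by_cases h : Z₀ (κ Z) ≤ Z
    · simp only [if_pos h]
      exact hZ₀ (κ Z) Z h K r a hA c
    · simp only [if_neg h, Set.mem_empty_iff_false, and_false, Set.ofPred_false, Set.ncard_empty,
        Nat.cast_zero]
      positivity

/-- **One exceptional set of vectors for each `ρ`**, for countably many pronull conditions. -/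
theorem one_family {κ : Type} [Countable κ] (P : ℕ) (B : κ → Set (ι → ℤ))
    (hun : ∀ A B : Set (ι → ℤ), ProNull A → ProNull B → ProNull (A ∪ B))
    (hB : ∀ D, ProNull (B D)) :
    ∃ (E : ℕ → Set (ι → ℤ)) (ω : ℕ → ℝ), Tendsto ω atTop (𝓝 0) ∧
      (∀ D, ∃ ρ₀ : ℕ, ∀ ρ, ρ₀ ≤ ρ → B D ⊆ E ρ) ∧
      ∀ (ρ : ℕ) (K r : ι → ℕ) (a : ι → ℕ → ℤ), Adm P ρ K r a → ∀ c : ι → ℤ,
        ({S : ι → Finset ℕ | S ∈ choices K r ∧ value c a S ∈ E ρ}.ncard : ℝ) ≤
          ω ρ * (choices K r).card := by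
  classical
  rcases isEmpty_or_nonempty κ with hκ | hκ
  · refine ⟨fun _ => ∅, fun _ => 0, tendsto_const_nhds, fun D => (hκ.false D).elim,
      fun ρ K r a _ c => ?_⟩
    simp
  obtain ⟨f, hf⟩ := exists_surjective_nat κ
  let C : ℕ → Set (ι → ℤ) := fun k => ⋃ j ∈ Finset.range (k + 1), B (f j)
  have hmono : Monotone C := by
    intro k k' hkk
    exact Set.biUnion_subset_biUnion_left fun j hj => by
      rw [Finset.mem_coe, Finset.mem_range] at *
      omega
  have hsucc : ∀ k, C (k + 1) = C k ∪ B (f (k + 1)) := by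
    intro k
    change (⋃ j ∈ Finset.range (k + 1 + 1), B (f j)) = _
    rw [Finset.range_add_one, Finset.set_biUnion_insert, Set.union_comm]
  have hzero : C 0 = B (f 0) := by
    change (⋃ j ∈ Finset.range (0 + 1), B (f j)) = _
    simp
  have hn : ∀ k, ProNull (C k) := by
    intro k
    induction k with
    | zero => rw [hzero]; exact hB _
    | succ k ih => rw [hsucc]; exact hun _ _ ih (hB _)
  obtain ⟨E, ω, h1, h2, h3⟩ := diag P C hmono hn
  refine ⟨E, ω, h1, fun D => ?_, h3⟩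
  obtain ⟨k, rfl⟩ := hf D
  obtain ⟨ρ₀, hρ₀⟩ := h2 k
  refine ⟨ρ₀, fun ρ hρ => Set.Subset.trans ?_ (hρ₀ ρ hρ)⟩
  intro c hc
  exact Set.mem_biUnion (x := k) (Finset.mem_coe.2 (Finset.mem_range.2 (by omega))) hc

/-- Changed digits: the differences are composed of small primes. -/
theorem smooth_digits {b : ℕ} (hb : 2 ≤ b) {D D' : ℤ} (hD : D ≠ 0) (hD1 : |D| < b)
    (hD' : |D'| < b) (i : ℕ) :
    Smooth (b * b) (D' * (b : ℤ) ^ (i + 1) - D * (b : ℤ) ^ i) := by
  have hb0 : (0 : ℤ) < b := by exact_mod_cast (by omega : 0 < b)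
  have hfac : D' * (b : ℤ) ^ (i + 1) - D * (b : ℤ) ^ i = (b : ℤ) ^ i * (D' * b - D) := by
    rw [pow_succ]; ring
  have hne : D' * (b : ℤ) - D ≠ 0 := by
    intro h
    have h1 : (b : ℤ) ∣ D := ⟨D', by linarith⟩
    exact hD (Int.eq_zero_of_abs_lt_dvd h1 hD1)
  rw [hfac]
  refine ⟨mul_ne_zero (pow_ne_zero _ hb0.ne') hne, fun p hp hpd => ?_⟩
  have hpI : Prime (p : ℤ) := Nat.prime_iff_prime_int.1 hp
  rcases hpI.dvd_or_dvd hpd with h | h
  · have h1 : p ∣ b := Int.natCast_dvd_natCast.1 (hpI.dvd_of_dvd_pow h)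
    exact (Nat.le_of_dvd (by omega) h1).trans (Nat.le_mul_self b)
  · have h1 : (p : ℤ) ≤ |D' * (b : ℤ) - D| := Int.le_of_dvd (abs_pos.2 hne) ((dvd_abs _ _).2 h)
    have h2 : |D' * (b : ℤ) - D| ≤ |D'| * b + |D| := by
      have := abs_sub (D' * (b : ℤ)) D
      rw [abs_mul, Nat.abs_cast] at this
      exact this
    have h3 : |D'| * (b : ℤ) + |D| ≤ b * b := by nlinarith
    have h4 : (p : ℤ) ≤ (b : ℤ) * b := by linarith
    exact_mod_cast h4

end

end Pool.Agent.L5helper14.FDC
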