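import Pool.Agent.L5helper14.FDC.Base

/-!
# Pronull sets and changed digits (helper file)

Owner helper14.
-/

set_option autoImplicit false

namespace Pool.Agent.L5helper14.FDC

open Finset Filter Topology
open Pool.Agent.N24.RW (ProNull)

/-- The digit number `i` (counted from the right, beginning with `0`) of `n` in base `b`. -/
def digit (b i n : ℕ) : ℕ := n / b ^ i % b

/-- The number which arises from the number `N` with at most `K` digits in base `b`, if for every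
`i ∈ S` the digit number `i` is replaced by `f i`. -/
def change (b K N : ℕ) (f : ℕ → ℕ) (S : Finset ℕ) : ℕ :=
  ∑ i ∈ range K, (if i ∈ S then f i else digit b i N) * b ^ i

lemma sum_digits (b N : ℕ) : ∀ K : ℕ, ∑ i ∈ range K, digit b i N * b ^ i = N % b ^ K := by
  intro K
  induction K with
  | zero => simp [Nat.mod_one]
  | succ K ih =>
    rw [sum_range_succ, ih, Nat.mod_pow_succ]
    unfold digit
    ring

lemma change_eq (b K N : ℕ) (f : ℕ → ℕ) (S : Finset ℕ) (hN : N < b ^ K) (hS : S ⊆ range K) :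
    (change b K N f S : ℤ) = (N : ℤ) + ∑ i ∈ S, ((f i : ℤ) - digit b i N) * (b : ℤ) ^ i := by
  have h1 : (N : ℤ) = ∑ i ∈ range K, (digit b i N : ℤ) * (b : ℤ) ^ i := by
    have := sum_digits b N K
    rw [Nat.mod_eq_of_lt hN] at this
    conv_lhs => rw [← this]
    push_cast
    rfl
  have h2 : ∑ i ∈ S, ((f i : ℤ) - digit b i N) * (b : ℤ) ^ i =
      ∑ i ∈ range K, if i ∈ S then ((f i : ℤ) - digit b i N) * (b : ℤ) ^ i else 0 := by
    rw [← sum_filter]
    refine sum_congr ?_ fun _ _ => rfl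
    ext i
    rw [mem_filter]
    exact ⟨fun h => ⟨hS h, h⟩, fun h => h.2⟩
  rw [h2]
  conv_rhs => rw [h1]
  rw [← sum_add_distrib]
  unfold change
  push_cast
  refine sum_congr rfl fun i _ => ?_
  split_ifs
  · ring
  · ring

section

variable {ι : Type} [Fintype ι] [DecidableEq ι]

/-- Independently for all `l ∈ ι`, choose `r l` of the `K l` positions `0, …, K l - 1` in base `b l`, and
change an integer by a nonzero multiple `D l i * b l ^ i`, `|D l i| < b l`, at the chosen positions `i`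
(in particular replace the digits of a natural number at these positions by other digits). If
`ρ ≤ r l ≤ K l / 2` for all `l`, at most the proportion `ω ρ` of the choices gives a vector in `E ρ`, and
`ω ρ` tends to zero, `ρ → ∞`. -/
def Rare (b : ι → ℕ) (E : ℕ → Set (ι → ℤ)) (ω : ℕ → ℝ) : Prop :=
  Tendsto ω atTop (𝓝 0) ∧ ∀ (ρ : ℕ) (K r : ι → ℕ), (∀ l, ρ ≤ r l ∧ 2 * r l ≤ K l) →
    (∀ (c : ι → ℤ) (D : ι → ℕ → ℤ), (∀ l i, D l i ≠ 0 ∧ |D l i| < b l) →
      ({S : ι → Finset ℕ | S ∈ choices K r ∧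
        (fun l => c l + ∑ i ∈ S l, D l i * (b l : ℤ) ^ i) ∈ E ρ}.ncard : ℝ) ≤
        ω ρ * (choices K r).card) ∧
    ∀ (N : ι → ℕ) (f : ι → ℕ → ℕ), (∀ l, N l < b l ^ K l) →
      (∀ l i, f l i < b l ∧ f l i ≠ digit (b l) i (N l)) →
      ({S : ι → Finset ℕ | S ∈ choices K r ∧
        (fun l => (change (b l) (K l) (N l) (f l) (S l) : ℤ)) ∈ E ρ}.ncard : ℝ) ≤
        ω ρ * (choices K r).card

/-- **One family of exceptional sets for countably many pronull conditions.** -/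
theorem rare_family {κ : Type} [Countable κ] (b : ι → ℕ) (hb : ∀ l, 2 ≤ b l)
    (B : κ → Set (ι → ℤ))
    (hun : ∀ A B : Set (ι → ℤ), ProNull A → ProNull B → ProNull (A ∪ B))
    (hB : ∀ D, ProNull (B D)) :
    ∃ (E : ℕ → Set (ι → ℤ)) (ω : ℕ → ℝ), Rare b E ω ∧
      ∀ D, ∃ ρ₀ : ℕ, ∀ ρ, ρ₀ ≤ ρ → B D ⊆ E ρ := by
  classical
  obtain ⟨E, ω, h1, h2, h3⟩ := one_family (∑ l, b l * b l) B hun hB
  have hsum : ∀ (ρ : ℕ) (K r : ι → ℕ), (∀ l, ρ ≤ r l ∧ 2 * r l ≤ K l) →
      ∀ (c : ι → ℤ) (D : ι → ℕ → ℤ), (∀ l i, i < K l → D l i ≠ 0 ∧ |D l i| < b l) →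
      ({S : ι → Finset ℕ | S ∈ choices K r ∧
        (fun l => c l + ∑ i ∈ S l, D l i * (b l : ℤ) ^ i) ∈ E ρ}.ncard : ℝ) ≤
        ω ρ * (choices K r).card := by
    intro ρ K r hKr c D hD
    refine h3 ρ K r (fun l i => D l i * (b l : ℤ) ^ i) ⟨hKr, fun l i hi => ?_⟩ c
    obtain ⟨s1, s2⟩ := smooth_digits (hb l) (hD l (2 * i) (by omega)).1 (hD l (2 * i) (by omega)).2
      (hD l (2 * i + 1) hi).2 (2 * i)
    exact ⟨s1, fun p hp hpd => (s2 p hp hpd).trans
      (single_le_sum (f := fun l => b l * b l) (fun _ _ => Nat.zero_le _) (mem_univ l))⟩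
  refine ⟨E, ω, ⟨h1, fun ρ K r hKr => ⟨fun c D hD => hsum ρ K r hKr c D fun l i _ => hD l i,
    fun N f hN hf => ?_⟩⟩, h2⟩
  have h4 := hsum ρ K r hKr (fun l => (N l : ℤ))
    (fun l i => (f l i : ℤ) - digit (b l) i (N l)) (by
      intro l i _
      obtain ⟨f1, f2⟩ := hf l i
      have h5 : digit (b l) i (N l) < b l := Nat.mod_lt _ (by have := hb l; omega)
      refine ⟨fun h => f2 (by exact_mod_cast sub_eq_zero.1 h), ?_⟩
      rw [abs_lt]
      constructor <;> omega)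
  refine le_trans (le_of_eq ?_) h4
  congr 2
  ext S
  simp only [Set.mem_ofPred_eq]
  refine and_congr_right fun hS => ?_
  have h6 : (fun l => (change (b l) (K l) (N l) (f l) (S l) : ℤ)) =
      fun l => (N l : ℤ) + ∑ i ∈ S l, ((f l i : ℤ) - digit (b l) i (N l)) * (b l : ℤ) ^ i := by
    funext l
    unfold choices at hS
    exact change_eq _ _ _ _ _ (hN l) (mem_powersetCard.1 (Fintype.mem_piFinset.1 hS l)).1
  rw [h6]

end

end Pool.Agent.L5helper14.FDC
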