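import Pool.Agent.L5helper14.FDC.Base
import Pool.Agent.L5helper14.RDM.Pal

/-!
# Pronull sets and vectors of integers with prescribed sets of digits, or of palindromes (helper file)

Owner helper14.
-/

set_option autoImplicit false

namespace Pool.Agent.L5helper14.FDC

open Finset Filter Topology
open Pool.Agent.N24.RW (ProNull)
open Pool.Agent.L5helper14.RDM (Syn numbers palindromes sum_numbers card_numbers sum_palindromes
  numbers_full full pal pal_eq)

/-- The general product bound. -/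
lemma norm_prod_le_pow (K : ℕ) (T : Finset ℕ) (hT : T ⊆ range K) (f : ℕ → ℂ) (c : ℕ → ℝ)
    (κ : ℝ) (h1 : ∀ i < K, ‖f i‖ ≤ c i)
    (h2 : ∀ i ∈ T, ‖f i‖ ≤ (1 - κ) * c i) :
    ‖∏ i ∈ range K, f i‖ ≤ (1 - κ) ^ T.card * ∏ i ∈ range K, c i := by
  classical
  rw [norm_prod]
  have h3 : ∏ i ∈ range K, ‖f i‖ ≤ ∏ i ∈ range K, ((if i ∈ T then 1 - κ else 1) * c i) := by
    refine prod_le_prod (fun _ _ => norm_nonneg _) fun i hi => ?_
    split_ifs with h
    · exact h2 i h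
    · rw [one_mul]
      exact h1 i (mem_range.1 hi)
  refine h3.trans (le_of_eq ?_)
  rw [prod_mul_distrib, ← prod_filter, prod_const]
  congr 3
  ext i
  rw [mem_filter]
  exact ⟨fun h => h.2, fun h => ⟨hT h, h⟩⟩

/-- Two different values among few. -/
lemma factor_bound (Q b : ℕ) [NeZero Q] (hb : 1 ≤ b) {η : ℝ} (hη : 0 < η)
    (hsep : ∀ x y : ZMod Q, x ≠ y → ‖ZMod.stdAddChar x + ZMod.stdAddChar y‖ ≤ 2 * (1 - η))
    (s : Finset ℕ) (hs : s.card ≤ b) (y : ℕ → ZMod Q) {d d' : ℕ} (hd : d ∈ s) (hd' : d' ∈ s)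
    (hy : y d ≠ y d') :
    ‖∑ d ∈ s, (ZMod.stdAddChar (y d) : ℂ)‖ ≤ (1 - η / b) * s.card := by
  classical
  have hb0 : (0 : ℝ) < b := by exact_mod_cast hb
  have hdd : d ≠ d' := fun h => hy (by rw [h])
  have h1 : s = insert d (insert d' ((s.erase d).erase d')) := by
    rw [insert_erase (mem_erase.2 ⟨hdd.symm, hd'⟩), insert_erase hd]
  have h2 : ∑ d ∈ s, (ZMod.stdAddChar (y d) : ℂ) =
      (ZMod.stdAddChar (y d) + ZMod.stdAddChar (y d')) +
        ∑ x ∈ (s.erase d).erase d', (ZMod.stdAddChar (y x) : ℂ) := by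
    rw [← add_sum_erase s _ hd, ← add_sum_erase (s.erase d) _ (mem_erase.2 ⟨hdd.symm, hd'⟩)]
    ring
  have h3 : (((s.erase d).erase d').card : ℝ) = s.card - 2 := by
    have e1 := card_erase_add_one hd
    have e2 := card_erase_add_one (mem_erase.2 ⟨hdd.symm, hd'⟩ : d' ∈ s.erase d)
    have : (((s.erase d).erase d').card : ℝ) + 2 = s.card := by exact_mod_cast (by omega)
    linarith
  have h4 : ‖∑ x ∈ (s.erase d).erase d', (ZMod.stdAddChar (y x) : ℂ)‖ ≤ s.card - 2 := by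
    refine (norm_sum_le _ _).trans ?_
    rw [← h3]
    simp [AddChar.norm_apply]
  rw [h2]
  refine (norm_add_le _ _).trans ((add_le_add (hsep _ _ hy) h4).trans ?_)
  have h5 : η / b * s.card ≤ 2 * η := by
    rw [div_mul_eq_mul_div, div_le_iff₀ hb0]
    have : (s.card : ℝ) ≤ b := by exact_mod_cast hs
    nlinarith
  linarith

/-- The powers of a number smaller than one. -/
lemma exists_pow_le {κ δ : ℝ} (hκ : 0 < κ) (hκ1 : κ ≤ 1) (hδ : 0 < δ) :
    ∃ n : ℕ, ∀ m, n ≤ m → (1 - κ) ^ m ≤ δ := by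
  obtain ⟨n, hn⟩ := exists_pow_lt_of_lt_one hδ (show 1 - κ < 1 by linarith)
  refine ⟨n, fun m hm => (pow_le_pow_of_le_one (by linarith) (by linarith) hm).trans hn.le⟩

/-- A syndetic set of positions has many members. -/
lemma syn_card {g K : ℕ} (F : ℕ → Prop) [DecidablePred F] (h : Syn g K F) :
    K / g ≤ ((range K).filter F).card := by
  classical
  have h1 : ∀ j ∈ range (K / g), ∃ i, j * g ≤ i ∧ i < j * g + g ∧ F i := by
    intro j hj
    have hj' := mem_range.1 hj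
    obtain ⟨i, hi⟩ := h (j * g) (by
      have : (j + 1) * g ≤ K / g * g := Nat.mul_le_mul_right _ hj'
      have h2 := Nat.div_mul_le_self K g
      calc j * g + g = (j + 1) * g := by ring
        _ ≤ K := this.trans h2)
    exact ⟨i, hi⟩
  choose! f hf using h1
  have h2 : (range (K / g)).card ≤ ((range K).filter F).card := by
    refine card_le_card_of_injOn f ?_ ?_
    · intro j hj
      have hj' := mem_range.1 (mem_coe.1 hj)
      obtain ⟨f1, f2, f3⟩ := hf j (mem_coe.1 hj)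
      rw [mem_coe, mem_filter, mem_range]
      refine ⟨?_, f3⟩
      have : (j + 1) * g ≤ K / g * g := Nat.mul_le_mul_right _ hj'
      have h2 := Nat.div_mul_le_self K g
      calc f j < j * g + g := f2
        _ = (j + 1) * g := by ring
        _ ≤ K := this.trans h2
    · intro j hj j' hj' hjj
      obtain ⟨f1, f2, -⟩ := hf j (mem_coe.1 hj)
      obtain ⟨f1', f2', -⟩ := hf j' (mem_coe.1 hj')
      have hjj' : f j = f j' := hjj
      rcases Nat.lt_trichotomy j j' with hlt | heq | hlt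
      · have : (j + 1) * g ≤ j' * g := Nat.mul_le_mul_right _ hlt
        have e1 : (j + 1) * g = j * g + g := by ring
        omega
      · exact heq
      · have : (j' + 1) * g ≤ j * g := Nat.mul_le_mul_right _ hlt
        have e1 : (j' + 1) * g = j' * g + g := by ring
        omega
  rwa [card_range] at h2

lemma unit_pow {b Q : ℕ} (i : ℕ) (h : b.Coprime Q) : IsUnit ((b : ZMod Q) ^ i) :=
  ((ZMod.isUnit_iff_coprime b Q).2 h).pow i

lemma coprime_of_factorial {P Q a : ℕ} (hQ : Q.Coprime (Nat.factorial P)) (ha : 0 < a)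
    (haP : a ≤ P) : a.Coprime Q :=
  (hQ.symm.coprime_dvd_left (Nat.dvd_factorial ha haP))

/-- **Exponential sums with rational frequencies over the integers with prescribed sets of digits.** -/
theorem digits_char {b g : ℕ} (hb : 2 ≤ b) (hg : 1 ≤ g) (Q : ℕ) [NeZero Q]
    (hQ : Q.Coprime (Nat.factorial (b * b))) {δ : ℝ} (hδ : 0 < δ) :
    ∃ K₀ : ℕ, ∀ K, K₀ ≤ K → ∀ D : ℕ → Finset ℕ, (∀ i < K, (D i).Nonempty ∧ D i ⊆ range b) →
      Syn g K (fun i => 2 ≤ (D i).card) → ∀ k : ZMod Q, k ≠ 0 →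
      ‖∑ m ∈ numbers b K D, (ZMod.stdAddChar (k * (m : ZMod Q)) : ℂ)‖ ≤
        δ * (numbers b K D).card := by
  classical
  obtain ⟨η, hη, hη1, hsep⟩ := sep Q
  have hb0 : (0 : ℝ) < b := by exact_mod_cast (by omega : 0 < b)
  have hηb : 0 < η / b := by positivity
  have hηb1 : η / b ≤ 1 := by
    rw [div_le_one hb0]
    have : (2 : ℝ) ≤ b := by exact_mod_cast hb
    linarith
  obtain ⟨n, hn⟩ := exists_pow_le hηb hηb1 hδ
  refine ⟨n * g, fun K hK D hD hF k hk => ?_⟩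
  have hfac : ∑ m ∈ numbers b K D, (ZMod.stdAddChar (k * (m : ZMod Q)) : ℂ) =
      ∏ i ∈ range K, ∑ d ∈ D i, (ZMod.stdAddChar (k * ((d : ZMod Q) * (b : ZMod Q) ^ i)) : ℂ) := by
    rw [← sum_numbers (by omega)
      (fun i d => (ZMod.stdAddChar (k * ((d : ZMod Q) * (b : ZMod Q) ^ i)) : ℂ)) K
      fun i hi => (hD i hi).2]
    refine sum_congr rfl fun m hm => ?_
    have h1 := Pool.Agent.L5helper14.RDM.sum_digits b m K
    rw [Nat.mod_eq_of_lt (mem_range.1 (mem_filter.1 hm).1)] at h1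
    conv_lhs => rw [← h1]
    push_cast
    rw [mul_sum]
    generalize range K = s
    induction s using Finset.induction_on with
    | empty => simp
    | insert i s hi ih => rw [prod_insert hi, sum_insert hi, AddChar.map_add_eq_mul, ih]
  have hcard : ((numbers b K D).card : ℝ) = ∏ i ∈ range K, ((D i).card : ℝ) := by
    rw [card_numbers (by omega) K fun i hi => (hD i hi).2]
    push_cast
    rfl
  rw [hfac, hcard]
  have h2 := norm_prod_le_pow K ((range K).filter fun i => 2 ≤ (D i).card) (filter_subset _ _)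
    (fun i => ∑ d ∈ D i, (ZMod.stdAddChar (k * ((d : ZMod Q) * (b : ZMod Q) ^ i)) : ℂ))
    (fun i => ((D i).card : ℝ)) (η / b)
    (fun i _ => by
      refine (norm_sum_le _ _).trans ?_
      simp [AddChar.norm_apply])
    (fun i hi => by
      obtain ⟨hi1, hi2⟩ := mem_filter.1 hi
      obtain ⟨x, hx, y, hy, hxy⟩ := one_lt_card.1 (show 1 < (D i).card by omega)
      have hiK := mem_range.1 hi1
      have hxb : x < b := mem_range.1 ((hD i hiK).2 hx)
      have hyb : y < b := mem_range.1 ((hD i hiK).2 hy)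
      have hcb : (D i).card ≤ b := by
        have := card_le_card (hD i hiK).2
        rwa [card_range] at this
      refine factor_bound Q b (by omega) hη hsep (D i) hcb _ hx hy fun heq => hk ?_
      have hbu : IsUnit ((b : ZMod Q) ^ i) :=
        unit_pow i (coprime_of_factorial hQ (by omega) (Nat.le_mul_self b))
      have hsm : Smooth (b * b) ((x : ℤ) - y) := by
        refine ⟨sub_ne_zero.2 (by exact_mod_cast hxy), fun p _ hpd => ?_⟩
        have hne : ((x : ℤ) - y) ≠ 0 := sub_ne_zero.2 (by exact_mod_cast hxy)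
        have h5 : (p : ℤ) ≤ |(x : ℤ) - y| := Int.le_of_dvd (abs_pos.2 hne) ((dvd_abs _ _).2 hpd)
        have h6 : |(x : ℤ) - y| ≤ b := by
          rw [abs_le]
          constructor <;> omega
        have h7 : p ≤ b := by exact_mod_cast h5.trans h6
        exact h7.trans (Nat.le_mul_self b)
      have hxu := isUnit_of_smooth hsm hQ
      have h8 : k * ((b : ZMod Q) ^ i * (((x : ℤ) - y : ℤ) : ZMod Q)) = 0 := by
        push_cast
        have := sub_eq_zero.2 heq
        linear_combination this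
      exact ((hbu.mul hxu).mul_left_eq_zero).1 h8)
  refine h2.trans (mul_le_mul_of_nonneg_right (hn _ ?_) (prod_nonneg fun _ _ => Nat.cast_nonneg _))
  refine le_trans ?_ (syn_card (fun i => 2 ≤ (D i).card) hF)
  rw [Nat.le_div_iff_mul_le hg]
  exact hK

/-- **Exponential sums with rational frequencies over the palindromes.** -/
theorem palindromes_char {b : ℕ} (hb : 2 ≤ b) (Q : ℕ) [NeZero Q]
    (hQ : Q.Coprime (Nat.factorial (b * b))) {δ : ℝ} (hδ : 0 < δ) :
    ∃ n₀ : ℕ, ∀ n, n₀ ≤ n → ∀ k : ZMod Q, k ≠ 0 →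
      ‖∑ m ∈ palindromes b n, (ZMod.stdAddChar (k * (m : ZMod Q)) : ℂ)‖ ≤
        δ * (palindromes b n).card := by
  classical
  obtain ⟨η, hη, hη1, hsep⟩ := sep Q
  have hb0 : (0 : ℝ) < b := by exact_mod_cast (by omega : 0 < b)
  have hηb : 0 < η / b := by positivity
  have hηb1 : η / b ≤ 1 := by
    rw [div_le_one hb0]
    have : (2 : ℝ) ≤ b := by exact_mod_cast hb
    linarith
  obtain ⟨N, hN⟩ := exists_pow_le hηb hηb1 hδ
  refine ⟨4 * N + 8, fun n hn k hk => ?_⟩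
  obtain ⟨h, hh⟩ : ∃ h, h = n / 2 := ⟨_, rfl⟩
  obtain ⟨c, hc⟩ : ∃ c, c = n - n / 2 := ⟨_, rfl⟩
  have hhc : h ≤ c := by omega
  obtain ⟨w, hw⟩ : ∃ w : ℕ → ZMod Q, w = fun j => (b : ZMod Q) ^ (h + j) +
      (if c - h ≤ j then (b : ZMod Q) ^ (c - 1 - j) else 0) := ⟨_, rfl⟩
  have hD : ∀ i < c, (full b c i).Nonempty ∧ full b c i ⊆ range b := by
    intro i _
    unfold full
    split_ifs
    · exact ⟨⟨1, by simp; omega⟩, fun x hx => by rw [mem_Ico] at hx; exact mem_range.2 hx.2⟩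
    · exact ⟨⟨0, by simp; omega⟩, fun x hx => hx⟩
  have hcard : ((palindromes b n).card : ℝ) = ∏ i ∈ range c, ((full b c i).card : ℝ) := by
    have h1 := sum_palindromes hb (n := n) (by omega) (fun _ => (1 : ℂ))
    simp only [sum_const, nsmul_eq_mul, mul_one] at h1
    have h2 : (palindromes b n).card = (Ico (b ^ (c - 1)) (b ^ c)).card := by
      rw [hc]
      exact_mod_cast h1
    rw [h2, ← numbers_full hb (by omega), card_numbers (by omega) c fun i hi => (hD i hi).2]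
    push_cast
    rfl
  have hsum : ∑ m ∈ palindromes b n, (ZMod.stdAddChar (k * (m : ZMod Q)) : ℂ) =
      ∏ i ∈ range c, ∑ d ∈ full b c i, (ZMod.stdAddChar (k * ((d : ZMod Q) * w i)) : ℂ) := by
    rw [sum_palindromes hb (by omega) (fun m => (ZMod.stdAddChar (k * (m : ZMod Q)) : ℂ)), ← hc, ← hh,
      ← numbers_full hb (by omega),
      ← sum_numbers (by omega) (fun i d => (ZMod.stdAddChar (k * ((d : ZMod Q) * w i)) : ℂ)) c
        fun i hi => (hD i hi).2]
    refine sum_congr rfl fun u hu => ?_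
    rw [pal_eq b h c u hhc (mem_range.1 (mem_filter.1 hu).1)]
    have e1 : ((∑ j ∈ range c, Pool.Agent.L5helper14.RDM.digit b j u *
        (b ^ (h + j) + if c - h ≤ j then b ^ (c - 1 - j) else 0) : ℕ) : ZMod Q) =
        ∑ j ∈ range c, (Pool.Agent.L5helper14.RDM.digit b j u : ZMod Q) * w j := by
      rw [hw]
      push_cast
      rfl
    rw [e1, mul_sum]
    generalize range c = s
    induction s using Finset.induction_on with
    | empty => simp
    | insert i s hi ih => rw [prod_insert hi, sum_insert hi, AddChar.map_add_eq_mul, ih]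
  rw [hsum, hcard]
  -- the good positions
  have hgood : ∀ i, 1 ≤ i → i + 2 < c → k * w i ≠ 0 ∨ k * w (i + 1) ≠ 0 := by
    intro i hi1 hi2
    by_contra hcon
    push Not at hcon
    obtain ⟨h1, h2⟩ := hcon
    have e1 : (b : ZMod Q) * w i - w (i + 1) =
        ((b * b - 1 : ℕ) : ZMod Q) * (b : ZMod Q) ^ (c - 2 - i) := by
      rw [hw]
      simp only
      rw [if_pos (by omega), if_pos (by omega)]
      have e2 : c - 1 - i = (c - 2 - i) + 1 := by omega
      have e3 : c - 1 - (i + 1) = c - 2 - i := by omega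
      rw [e2, e3, ← add_assoc h i 1, pow_succ (b : ZMod Q) (h + i), pow_succ (b : ZMod Q) (c - 2 - i)]
      have hbb : 1 ≤ b * b := by nlinarith
      rw [Nat.cast_sub hbb]
      push_cast
      ring
    have hu1 : IsUnit (((b * b - 1 : ℕ) : ZMod Q)) :=
      (ZMod.isUnit_iff_coprime _ Q).2 (coprime_of_factorial hQ (by
        have : 4 ≤ b * b := by nlinarith
        omega) (Nat.sub_le _ _))
    have hu2 : IsUnit ((b : ZMod Q) ^ (c - 2 - i)) :=
      unit_pow _ (coprime_of_factorial hQ (by omega) (Nat.le_mul_self b))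
    apply hk
    have h3 : k * (((b * b - 1 : ℕ) : ZMod Q) * (b : ZMod Q) ^ (c - 2 - i)) = 0 := by
      rw [← e1]
      linear_combination (b : ZMod Q) * h1 - h2
    exact ((hu1.mul hu2).mul_left_eq_zero).1 h3
  have hsyn : Syn 2 (c - 2) (fun i => k * w (i + 1) ≠ 0) := by
    intro i hi
    rcases hgood (i + 1) (by omega) (by omega) with h1 | h1
    · exact ⟨i, le_rfl, by omega, h1⟩
    · exact ⟨i + 1, by omega, by omega, h1⟩
  obtain ⟨T, hTdef⟩ : ∃ T : Finset ℕ, T = ((range (c - 2)).filter fun i => k * w (i + 1) ≠ 0).image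
      (fun i => i + 1) := ⟨_, rfl⟩
  have hTcard : (c - 2) / 2 ≤ T.card := by
    rw [hTdef, card_image_of_injective _ (add_left_injective 1)]
    exact syn_card _ hsyn
  have hT : T ⊆ range c := by
    intro i hi
    rw [hTdef, mem_image] at hi
    obtain ⟨j, hj, rfl⟩ := hi
    have := mem_range.1 (mem_filter.1 hj).1
    exact mem_range.2 (by omega)
  have h2 := norm_prod_le_pow c T hT
    (fun i => ∑ d ∈ full b c i, (ZMod.stdAddChar (k * ((d : ZMod Q) * w i)) : ℂ))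
    (fun i => ((full b c i).card : ℝ)) (η / b)
    (fun i _ => by
      refine (norm_sum_le _ _).trans ?_
      simp [AddChar.norm_apply])
    (fun i hi => by
      rw [hTdef, mem_image] at hi
      obtain ⟨j, hj, rfl⟩ := hi
      obtain ⟨hj1, hj2⟩ := mem_filter.1 hj
      have hj3 := mem_range.1 hj1
      have h3 : full b c (j + 1) = range b := by
        unfold full
        rw [if_neg (by omega)]
      have hcb : (full b c (j + 1)).card ≤ b := by rw [h3, card_range]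
      refine factor_bound Q b (by omega) hη hsep _ hcb _ (d := 1) (d' := 0)
        (by rw [h3]; exact mem_range.2 (by omega)) (by rw [h3]; exact mem_range.2 (by omega))
        fun heq => hj2 ?_
      simpa using heq)
  refine h2.trans (mul_le_mul_of_nonneg_right (hN _ ?_) (prod_nonneg fun _ _ => Nat.cast_nonneg _))
  refine le_trans ?_ hTcard
  omega

/-- From exponential sums to the residue classes. -/
lemma count_of_char (Q : ℕ) [NeZero Q] (s : Finset ℕ) {δ : ℝ} (hδ : 0 ≤ δ)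
    (h : ∀ k : ZMod Q, k ≠ 0 → ‖∑ m ∈ s, (ZMod.stdAddChar (k * (m : ZMod Q)) : ℂ)‖ ≤ δ * s.card)
    (ρ : ZMod Q) : ((s.filter fun m : ℕ => (m : ZMod Q) = ρ).card : ℝ) ≤ (1 / Q + δ) * s.card := by
  classical
  have hQ0 : (0 : ℝ) < Q := by exact_mod_cast Nat.pos_of_ne_zero (NeZero.ne Q)
  have key : ((s.filter fun m : ℕ => (m : ZMod Q) = ρ).card : ℂ) * Q =
      ∑ k : ZMod Q, (ZMod.stdAddChar (k * (-ρ)) : ℂ) *
        ∑ m ∈ s, (ZMod.stdAddChar (k * (m : ZMod Q)) : ℂ) := by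
    have h1 : ∀ m : ℕ, (if (m : ZMod Q) = ρ then (Q : ℂ) else 0) =
        ∑ k : ZMod Q, (ZMod.stdAddChar (k * (-ρ)) : ℂ) *
          (ZMod.stdAddChar (k * (m : ZMod Q)) : ℂ) := by
      intro m
      have h2 := AddChar.sum_mulShift ((m : ZMod Q) - ρ) (ZMod.isPrimitive_stdAddChar Q)
      simp only [sub_eq_zero, ZMod.card] at h2
      rw [Nat.cast_ite, Nat.cast_zero] at h2
      rw [← h2]
      refine sum_congr rfl fun k _ => ?_
      rw [← AddChar.map_add_eq_mul]
      congr 1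
      ring
    rw [card_filter, Nat.cast_sum, sum_mul]
    simp_rw [mul_sum]
    rw [sum_comm]
    refine sum_congr rfl fun m _ => ?_
    rw [← h1 m]
    split_ifs <;> simp
  have hnorm : ((s.filter fun m : ℕ => (m : ZMod Q) = ρ).card : ℝ) * Q ≤
      (s.card : ℝ) + Q * (δ * s.card) := by
    have h1 : ((s.filter fun m : ℕ => (m : ZMod Q) = ρ).card : ℝ) * Q =
        ‖((s.filter fun m : ℕ => (m : ZMod Q) = ρ).card : ℂ) * Q‖ := by
      rw [norm_mul, Complex.norm_natCast, Complex.norm_natCast]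
    rw [h1, key, ← add_sum_erase univ _ (mem_univ (0 : ZMod Q))]
    refine (norm_add_le _ _).trans (add_le_add ?_ ?_)
    · simp
    · refine (norm_sum_le _ _).trans ?_
      have h2 : ∀ k ∈ (univ : Finset (ZMod Q)).erase 0, ‖(ZMod.stdAddChar (k * (-ρ)) : ℂ) *
        ∑ m ∈ s, (ZMod.stdAddChar (k * (m : ZMod Q)) : ℂ)‖ ≤ δ * s.card := by
        intro k hk
        rw [norm_mul, AddChar.norm_apply, one_mul]
        exact h k (ne_of_mem_erase hk)
      refine (sum_le_card_nsmul _ _ _ h2).trans ?_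
      rw [nsmul_eq_mul]
      apply mul_le_mul_of_nonneg_right _ (by positivity)
      have h3 : ((univ : Finset (ZMod Q)).erase 0).card ≤ Q :=
        (card_le_card (erase_subset _ _)).trans (by rw [card_univ, ZMod.card])
      exact_mod_cast h3
  have h5 : (1 / (Q : ℝ) + δ) * s.card = ((s.card : ℝ) + Q * (δ * s.card)) / Q := by
    field_simp
  rw [h5, le_div_iff₀ hQ0]
  exact hnorm

/-- `m < b ^ K` and its digit number `i` in base `b` is in `D i`, for all `i < K`: the condition on the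
sets `D i` of digits. They are not empty, and each block of `g` consecutive positions below `K` contains a
position `i` such that `D i` has at least two members. -/
def Free (b g K : ℕ) (D : ℕ → Finset ℕ) : Prop :=
  (∀ i < K, (D i).Nonempty ∧ ∀ d ∈ D i, d < b) ∧
    ∀ i, i + g ≤ K → ∃ j, i ≤ j ∧ j < i + g ∧ 2 ≤ (D j).card

/-- The set of the numbers with prescribed sets of digits at `K ≥ ρ` positions in base `b`, or the set of the
palindromes with `n ≥ ρ` digits in base `b`. -/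
def Sparse (b g ρ : ℕ) (s : Finset ℕ) : Prop :=
  (∃ K, ρ ≤ K ∧ ∃ D : ℕ → Finset ℕ, Free b g K D ∧ s = numbers b K D) ∨
    ∃ n, ρ ≤ n ∧ s = palindromes b n

/-- **Equidistribution modulo `Q`.** -/
theorem sparse_flat {b g : ℕ} (hb : 2 ≤ b) (hg : 1 ≤ g) (Q : ℕ) [NeZero Q]
    (hQ : Q.Coprime (Nat.factorial (b * b))) {δ : ℝ} (hδ : 0 < δ) :
    ∃ ρ₀ : ℕ, ∀ ρ, ρ₀ ≤ ρ → ∀ s : Finset ℕ, Sparse b g ρ s → ∀ σ : ZMod Q,
      ((s.filter fun m : ℕ => (m : ZMod Q) = σ).card : ℝ) ≤ (1 / Q + δ) * s.card := by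
  obtain ⟨K₀, hK₀⟩ := digits_char hb hg Q hQ hδ
  obtain ⟨n₀, hn₀⟩ := palindromes_char hb Q hQ hδ
  refine ⟨max K₀ n₀, fun ρ hρ s hs σ => ?_⟩
  apply count_of_char Q s hδ.le
  rcases hs with ⟨K, hK, D, hD, rfl⟩ | ⟨n, hn, rfl⟩
  · exact hK₀ K (((le_max_left _ _).trans hρ).trans hK) D
      (fun i hi => ⟨(hD.1 i hi).1, fun d hd => mem_range.2 ((hD.1 i hi).2 d hd)⟩) hD.2
  · exact hn₀ n (((le_max_right _ _).trans hρ).trans hn)

section

variable {ι : Type} [Fintype ι] [DecidableEq ι]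

/-- **Pronull sets are visited rarely.** -/
theorem sparse_null (b : ι → ℕ) (hb : ∀ l, 2 ≤ b l) {g : ℕ} (hg : 1 ≤ g) (B : Set (ι → ℤ))
    (hB : ProNull B) (ε : ℝ) (hε : 0 < ε) :
    ∃ ρ₀ : ℕ, ∀ ρ, ρ₀ ≤ ρ → ∀ S : ι → Finset ℕ, (∀ l, Sparse (b l) g ρ (S l)) → ∀ c : ι → ℤ,
      ({x : ι → ℕ | (∀ l, x l ∈ S l) ∧ (fun l => c l + (x l : ℤ)) ∈ B}.ncard : ℝ) ≤
        ε * ∏ l, ((S l).card : ℝ) := by
  classical
  obtain ⟨P, hP⟩ : ∃ P : ℕ, P = ∑ l, b l * b l := ⟨_, rfl⟩
  obtain ⟨Q, hQ, hQc, hc⟩ := hB (Nat.factorial P) (Nat.factorial_pos P) (ε / 3) (by positivity)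
  have : NeZero Q := ⟨hQ.ne'⟩
  have hQl : ∀ l, Q.Coprime (Nat.factorial (b l * b l)) := fun l =>
    hQc.coprime_dvd_right (Nat.factorial_dvd_factorial (by
      rw [hP]
      exact single_le_sum (f := fun l => b l * b l) (fun _ _ => Nat.zero_le _) (mem_univ l)))
  obtain ⟨d, hd⟩ : ∃ d, d = Fintype.card ι := ⟨_, rfl⟩
  rw [← hd] at hc
  have hQ0 : (0 : ℝ) < Q := by exact_mod_cast hQ
  obtain ⟨δ, hδ⟩ : ∃ δ : ℝ, δ = 1 / (Q * (d + 1)) := ⟨_, rfl⟩
  have hδ0 : 0 < δ := by rw [hδ]; positivity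
  choose ρ₁ hρ₁ using fun l => sparse_flat (hb l) hg Q (hQl l) hδ0
  refine ⟨univ.sup ρ₁, fun ρ hρ S hS c => ?_⟩
  obtain ⟨I, hI⟩ : ∃ I : Set (ι → ZMod Q), I = (fun (c : ι → ℤ) (i : ι) => (c i : ZMod Q)) '' B :=
    ⟨_, rfl⟩
  rw [← hI] at hc
  have hIf : I.Finite := Set.toFinite I
  have hcard : ((Fintype.piFinset S).card : ℝ) = ∏ l, ((S l).card : ℝ) := by
    rw [Fintype.card_piFinset]
    push_cast
    rfl
  rw [← hcard]
  have hcard0 : (0 : ℝ) ≤ ((Fintype.piFinset S).card : ℝ) := Nat.cast_nonneg _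
  have h5 : ∀ σ : ι → ZMod Q, (((Fintype.piFinset S).filter
      fun x : ι → ℕ => (fun l => ((c l + (x l : ℤ) : ℤ) : ZMod Q)) = σ).card : ℝ) ≤
      3 / (Q : ℝ) ^ d * (Fintype.piFinset S).card := by
    intro σ
    have e1 : ((Fintype.piFinset S).filter
        fun x : ι → ℕ => (fun l => ((c l + (x l : ℤ) : ℤ) : ZMod Q)) = σ) =
        Fintype.piFinset fun l => (S l).filter fun m : ℕ => (m : ZMod Q) = σ l - c l := by
      ext x
      simp only [mem_filter, Fintype.mem_piFinset, funext_iff, Int.cast_add, Int.cast_natCast]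
      constructor
      · rintro ⟨h1, h2⟩ l
        exact ⟨h1 l, by rw [← h2 l]; ring⟩
      · intro h
        exact ⟨fun l => (h l).1, fun l => by rw [(h l).2]; ring⟩
    rw [e1, Fintype.card_piFinset, hcard]
    push_cast
    have h6 : ∏ l, ((((S l).filter fun m : ℕ => (m : ZMod Q) = σ l - c l).card : ℕ) : ℝ) ≤
        ∏ l, ((1 / (Q : ℝ) + δ) * ((S l).card : ℝ)) :=
      prod_le_prod (fun l _ => Nat.cast_nonneg _) fun l _ =>
        hρ₁ l ρ ((le_sup (f := ρ₁) (mem_univ l)).trans hρ) (S l) (hS l) _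
    rw [prod_mul_distrib, prod_const, card_univ, ← hd] at h6
    refine h6.trans (mul_le_mul_of_nonneg_right ?_ (prod_nonneg fun _ _ => Nat.cast_nonneg _))
    have h7 : 1 / (Q : ℝ) + δ = 1 / Q * (1 + 1 / (d + 1)) := by
      rw [hδ]; field_simp
    rw [h7, mul_pow, div_pow, one_pow]
    have h8 : (1 + 1 / ((d : ℝ) + 1)) ^ d ≤ 3 := by
      have h9 : (1 + 1 / ((d : ℝ) + 1)) ^ d ≤ (Real.exp (1 / ((d : ℝ) + 1))) ^ d := by
        apply pow_le_pow_left₀ (by positivity)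
        have := Real.add_one_le_exp (1 / ((d : ℝ) + 1))
        linarith
      refine h9.trans ?_
      rw [← Real.exp_nat_mul]
      have h10 : (d : ℝ) * (1 / ((d : ℝ) + 1)) ≤ 1 := by
        rw [mul_one_div, div_le_one (by positivity)]
        linarith
      refine (Real.exp_le_exp.2 h10).trans ?_
      have := Real.exp_one_lt_d9
      linarith
    calc 1 / (Q : ℝ) ^ d * (1 + 1 / ((d : ℝ) + 1)) ^ d ≤ 1 / (Q : ℝ) ^ d * 3 :=
          mul_le_mul_of_nonneg_left h8 (by positivity)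
      _ = 3 / (Q : ℝ) ^ d := by ring
  have h1 : {x : ι → ℕ | (∀ l, x l ∈ S l) ∧ (fun l => c l + (x l : ℤ)) ∈ B} ⊆
      ↑(hIf.toFinset.biUnion fun σ => (Fintype.piFinset S).filter
        fun x : ι → ℕ => (fun l => ((c l + (x l : ℤ) : ℤ) : ZMod Q)) = σ) := by
    rintro x ⟨hx, hxB⟩
    rw [Finset.mem_coe, Finset.mem_biUnion]
    refine ⟨fun l => ((c l + (x l : ℤ) : ℤ) : ZMod Q), ?_,
      Finset.mem_filter.2 ⟨Fintype.mem_piFinset.2 hx, rfl⟩⟩
    rw [Set.Finite.mem_toFinset, hI]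
    exact ⟨fun l => c l + (x l : ℤ), hxB, rfl⟩
  have h2 : ({x : ι → ℕ | (∀ l, x l ∈ S l) ∧ (fun l => c l + (x l : ℤ)) ∈ B}.ncard : ℝ) ≤
      ∑ σ ∈ hIf.toFinset, (((Fintype.piFinset S).filter
        fun x : ι → ℕ => (fun l => ((c l + (x l : ℤ) : ℤ) : ZMod Q)) = σ).card : ℝ) := by
    have h3 := Set.ncard_le_ncard h1 (Finset.finite_toSet _)
    rw [Set.ncard_coe_finset] at h3
    have h4 := h3.trans Finset.card_biUnion_le
    exact_mod_cast h4
  have h11 : (hIf.toFinset.card : ℝ) ≤ ε / 3 * (Q : ℝ) ^ d := by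
    rw [← Set.ncard_eq_toFinset_card I hIf]
    exact hc
  refine h2.trans ((Finset.sum_le_card_nsmul _ _ _ fun σ _ => h5 σ).trans ?_)
  rw [nsmul_eq_mul]
  calc (hIf.toFinset.card : ℝ) * (3 / (Q : ℝ) ^ d * (Fintype.piFinset S).card) ≤
        (ε / 3 * (Q : ℝ) ^ d) * (3 / (Q : ℝ) ^ d * (Fintype.piFinset S).card) :=
        mul_le_mul_of_nonneg_right h11 (by positivity)
    _ = ε * (Fintype.piFinset S).card := by field_simp

/-- The sets `E 0, E 1, …` of integral vectors are met rarely by the vectors with prescribed sets of digits,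
or of palindromes: for all bases `b l ≥ 2`, all `g ≥ 1` and `ε > 0` there is `ρ₀` such that for all `ρ ≥ ρ₀`, ALL
sets `S l` with `Sparse (b l) g ρ (S l)` and ALL integers `c l` at most the proportion `ε` of the vectors `x`,
`x l ∈ S l`, has `c + x ∈ E ρ`. -/
def RareAll (E : ℕ → Set (ι → ℤ)) : Prop :=
  ∀ (b : ι → ℕ) (g : ℕ), (∀ l, 2 ≤ b l) → 1 ≤ g → ∀ ε : ℝ, 0 < ε → ∃ ρ₀ : ℕ, ∀ ρ, ρ₀ ≤ ρ →
    ∀ S : ι → Finset ℕ, (∀ l, Sparse (b l) g ρ (S l)) → ∀ c : ι → ℤ,
      ({x : ι → ℕ | (∀ l, x l ∈ S l) ∧ (fun l => c l + (x l : ℤ)) ∈ E ρ}.ncard : ℝ) ≤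
        ε * ∏ l, ((S l).card : ℝ)

/-- **One family of exceptional sets for all bases**, for countably many pronull conditions. -/
theorem rareAll_family {κ : Type} [Countable κ] (B : κ → Set (ι → ℤ))
    (hun : ∀ A B : Set (ι → ℤ), ProNull A → ProNull B → ProNull (A ∪ B))
    (hB : ∀ D, ProNull (B D)) :
    ∃ E : ℕ → Set (ι → ℤ), RareAll E ∧ ∀ D, ∃ ρ₀ : ℕ, ∀ ρ, ρ₀ ≤ ρ → B D ⊆ E ρ := by
  classical
  rcases isEmpty_or_nonempty κ with hκ | hκ
  · refine ⟨fun _ => ∅, fun b g _ _ ε hε => ⟨0, fun ρ _ S _ c => ?_⟩, fun D => (hκ.false D).elim⟩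
    simp only [Set.mem_empty_iff_false, and_false, Set.ofPred_false, Set.ncard_empty, Nat.cast_zero]
    exact mul_nonneg hε.le (prod_nonneg fun _ _ => Nat.cast_nonneg _)
  obtain ⟨f, hf⟩ := exists_surjective_nat κ
  let C : ℕ → Set (ι → ℤ) := fun k => ⋃ j ∈ Finset.range (k + 1), B (f j)
  have hmono : Monotone C := by
    intro k k' hkk
    exact Set.biUnion_subset_biUnion_left fun j hj => by
      rw [Finset.mem_coe, Finset.mem_range] at *
      omega
  have hsucc : ∀ k, C (k + 1) = C k ∪ B (f (k + 1)) := by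
    intro k
    change (⋃ j ∈ Finset.range (k + 1 + 1), B (f j)) = _
    rw [Finset.range_add_one, Finset.set_biUnion_insert, Set.union_comm]
  have hzero : C 0 = B (f 0) := by
    change (⋃ j ∈ Finset.range (0 + 1), B (f j)) = _
    simp
  have hn : ∀ k, ProNull (C k) := by
    intro k
    induction k with
    | zero => rw [hzero]; exact hB _
    | succ k ih => rw [hsucc]; exact hun _ _ ih (hB _)
  -- one bound for all bases up to `k`
  have hex : ∀ k : ℕ, ∃ Z : ℕ, ∀ ρ, Z ≤ ρ → ∀ b : ι → ℕ, (∀ l, 2 ≤ b l) → (∀ l, b l ≤ k) →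
      ∀ g, 1 ≤ g → g ≤ k → ∀ S : ι → Finset ℕ, (∀ l, Sparse (b l) g ρ (S l)) → ∀ c : ι → ℤ,
      ({x : ι → ℕ | (∀ l, x l ∈ S l) ∧ (fun l => c l + (x l : ℤ)) ∈ C k}.ncard : ℝ) ≤
        1 / ((k : ℝ) + 1) * ∏ l, ((S l).card : ℝ) := by
    intro k
    choose Z hZ using fun (z : (ι → Fin (k + 1)) × Fin (k + 1)) =>
      (show ∃ Z : ℕ, ∀ ρ, Z ≤ ρ → (∀ l, 2 ≤ (z.1 l : ℕ)) → 1 ≤ (z.2 : ℕ) →
        ∀ S : ι → Finset ℕ, (∀ l, Sparse (z.1 l) z.2 ρ (S l)) → ∀ c : ι → ℤ,
        ({x : ι → ℕ | (∀ l, x l ∈ S l) ∧ (fun l => c l + (x l : ℤ)) ∈ C k}.ncard : ℝ) ≤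
          1 / ((k : ℝ) + 1) * ∏ l, ((S l).card : ℝ) from by
        by_cases h1 : ∀ l, 2 ≤ (z.1 l : ℕ)
        · by_cases h2 : 1 ≤ (z.2 : ℕ)
          · obtain ⟨Z, hZ⟩ := sparse_null (fun l => (z.1 l : ℕ)) h1 h2 (C k) (hn k)
              (1 / ((k : ℝ) + 1)) (by positivity)
            exact ⟨Z, fun ρ hρ _ _ => hZ ρ hρ⟩
          · exact ⟨0, fun ρ _ _ h => absurd h h2⟩
        · exact ⟨0, fun ρ _ h => absurd h h1⟩)
    refine ⟨univ.sup Z, fun ρ hρ b hb hbk g hg hgk S hS c => ?_⟩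
    have h3 := hZ (fun l => ⟨b l, Nat.lt_succ_of_le (hbk l)⟩, ⟨g, Nat.lt_succ_of_le hgk⟩) ρ
      ((le_sup (f := Z) (mem_univ _)).trans hρ) hb hg S hS c
    exact h3
  choose Z₀ hZ₀ using hex
  obtain ⟨κ', hκ'⟩ : ∃ κ' : ℕ → ℕ, κ' = fun Z => Nat.findGreatest (fun D => Z₀ D ≤ Z) Z := ⟨_, rfl⟩
  have hκge : ∀ (D : ℕ) (Z : ℕ), D ≤ Z → Z₀ D ≤ Z → D ≤ κ' Z ∧ Z₀ (κ' Z) ≤ Z := by
    intro D Z h1 h2
    rw [hκ']
    exact ⟨Nat.le_findGreatest h1 h2, Nat.findGreatest_spec (P := fun D => Z₀ D ≤ Z) h1 h2⟩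
  refine ⟨fun Z => C (κ' Z), fun b g hb hg ε hε => ?_, fun D => ?_⟩
  · obtain ⟨n, hn⟩ := exists_nat_one_div_lt hε
    obtain ⟨D, hD⟩ : ∃ D : ℕ, D = n + g + ∑ l, b l := ⟨_, rfl⟩
    refine ⟨max D (Z₀ D), fun ρ hρ S hS c => ?_⟩
    obtain ⟨h1, h2⟩ := hκge D ρ ((le_max_left _ _).trans hρ) ((le_max_right _ _).trans hρ)
    refine (hZ₀ (κ' ρ) ρ h2 b hb (fun l => ?_) g hg (by omega) S hS c).trans
      (mul_le_mul_of_nonneg_right ?_ (prod_nonneg fun _ _ => Nat.cast_nonneg _))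
    · have : b l ≤ ∑ l, b l := single_le_sum (fun _ _ => Nat.zero_le _) (mem_univ l)
      omega
    · refine le_trans ?_ hn.le
      apply one_div_le_one_div_of_le (by positivity)
      have : (n : ℝ) ≤ κ' ρ := by exact_mod_cast (by omega : n ≤ κ' ρ)
      linarith
  · obtain ⟨k, rfl⟩ := hf D
    refine ⟨max k (Z₀ k), fun ρ hρ => ?_⟩
    obtain ⟨h1, -⟩ := hκge k ρ ((le_max_left _ _).trans hρ) ((le_max_right _ _).trans hρ)
    refine Set.Subset.trans ?_ (hmono h1)
    intro c hc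
    exact Set.mem_biUnion (x := k) (Finset.mem_coe.2 (Finset.mem_range.2 (by omega))) hc

end

end Pool.Agent.L5helper14.FDC
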